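import Mathlib

namespace Pool.H62.SS

open MvPolynomial

/-- Chevalley-Warning for systems of quadratic equations without constant term. -/
theorem cw {E : Type*} [AddCommGroup E] [Module (ZMod 2) E] [Module.Finite (ZMod 2) E]
    {ι κ : Type*} [Fintype ι] [Fintype κ]
    (lin : ι → E →ₗ[ZMod 2] ZMod 2) (A B : ι → κ → E →ₗ[ZMod 2] ZMod 2)
    (h : 2 * Fintype.card ι < Module.finrank (ZMod 2) E) :
    ∃ w : E, w ≠ 0 ∧ ∀ i, lin i w + ∑ k, A i k w * B i k w = 0 := by
  classical
  have : Fact (Nat.Prime 2) := ⟨Nat.prime_two⟩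
  set d := Module.finrank (ZMod 2) E with hd
  let b : Module.Basis (Fin d) (ZMod 2) E := Module.finBasis (ZMod 2) E
  let P : (E →ₗ[ZMod 2] ZMod 2) → MvPolynomial (Fin d) (ZMod 2) :=
    fun f => ∑ j, C (f (b j)) * X j
  have hP : ∀ (f : E →ₗ[ZMod 2] ZMod 2) (c : Fin d → ZMod 2),
      eval c (P f) = f (b.equivFun.symm c) := by
    intro f c
    simp only [P, map_sum, map_mul, eval_C, eval_X, Module.Basis.equivFun_symm_apply, map_smul,
      smul_eq_mul]
    exact Finset.sum_congr rfl (fun j _ => mul_comm _ _)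
  have hPd : ∀ f : E →ₗ[ZMod 2] ZMod 2, (P f).totalDegree ≤ 1 := by
    intro f
    refine (totalDegree_finsetSum _ _).trans (Finset.sup_le fun j _ => ?_)
    refine (totalDegree_mul _ _).trans ?_
    simp
  let Q : ι → MvPolynomial (Fin d) (ZMod 2) := fun i =>
    P (lin i) + ∑ k, P (A i k) * P (B i k)
  have hQ : ∀ i (c : Fin d → ZMod 2), eval c (Q i) =
      lin i (b.equivFun.symm c) + ∑ k, A i k (b.equivFun.symm c) * B i k (b.equivFun.symm c) := by
    intro i c
    simp only [Q, map_add, map_sum, map_mul, hP]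
  have hQd : ∀ i, (Q i).totalDegree ≤ 2 := by
    intro i
    refine (totalDegree_add _ _).trans (max_le ((hPd _).trans (by norm_num)) ?_)
    refine (totalDegree_finsetSum _ _).trans (Finset.sup_le fun k _ => ?_)
    refine (totalDegree_mul _ _).trans ?_
    have h1 := hPd (A i k)
    have h2 := hPd (B i k)
    omega
  have hsum : (∑ i, (Q i).totalDegree) < Fintype.card (Fin d) := by
    calc (∑ i, (Q i).totalDegree) ≤ ∑ _i : ι, 2 := Finset.sum_le_sum fun i _ => hQd i
      _ = 2 * Fintype.card ι := by simp [mul_comm]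
      _ < d := h
      _ = Fintype.card (Fin d) := by simp
  have hdvd := char_dvd_card_solutions_of_fintype_sum_lt 2 hsum
  by_contra hcon
  push Not at hcon
  have huniq : Fintype.card {x : Fin d → ZMod 2 // ∀ i, eval x (Q i) = 0} = 1 := by
    rw [Fintype.card_eq_one_iff]
    refine ⟨⟨0, fun i => ?_⟩, ?_⟩
    · rw [hQ]; simp
    · rintro ⟨y, hy⟩
      apply Subtype.ext
      show y = 0
      by_contra hy0
      have hne : b.equivFun.symm y ≠ 0 := by
        intro h0
        exact hy0 (b.equivFun.symm.map_eq_zero_iff.mp h0)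
      obtain ⟨i, hi⟩ := hcon _ hne
      exact hi ((hQ i y).symm.trans (hy i))
  rw [huniq] at hdvd
  omega

end Pool.H62.SS
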