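import Mathlib

namespace Pool.H62.SS

/-- Triples of colours, one from each of three groups of `s` colours. -/
abbrev Idx (s : ℕ) := Fin 3 → Fin s
/-- Inputs of the gadget: three bits for every triple. -/
abbrev VV (s : ℕ) := Idx s → Fin 3 → ZMod 2
/-- Outputs of the gadget: one bit for every colour. -/
abbrev Col (s : ℕ) := Fin 3 → Fin s → ZMod 2

/-- The quadratic gadget. -/
def Phi {s : ℕ} (x : VV s) : Col s :=
  fun g i => ∑ t : Idx s, (if t g = i then x t (g + 1) else 0) * x t (g + 2)

/-- The linear functionals whose vanishing makes `w` parallel to the colour vector of `p`. -/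
def chi {s : ℕ} (p : Idx s) (te : Idx s × Fin 3) : VV s →ₗ[ZMod 2] ZMod 2 where
  toFun w := (if p (te.2 + 1) = te.1 (te.2 + 1) then w te.1 (te.2 + 2) else 0) +
    (if p (te.2 + 2) = te.1 (te.2 + 2) then w te.1 (te.2 + 1) else 0)
  map_add' x y := by
    simp only [Pi.add_apply]
    split_ifs <;> ring
  map_smul' c x := by
    simp only [Pi.smul_apply, smul_eq_mul, RingHom.id_apply]
    split_ifs <;> ring

/-- Evaluation of the colours at the triple `p`. -/
def Lin (s : ℕ) : Col s →ₗ[ZMod 2] (Idx s → ZMod 2) where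
  toFun v p := ∑ g, v g (p g)
  map_add' x y := by
    funext p
    simp [Finset.sum_add_distrib]
  map_smul' c x := by
    funext p
    simp [Finset.mul_sum]

theorem Lin_apply {s : ℕ} (v : Col s) (p : Idx s) : Lin s v p = ∑ g, v g (p g) := rfl

private theorem key (e0 e1 e2 w0 w1 w2 z0 z1 z2 : ZMod 2)
    (h0 : e1 * w2 + e2 * w1 = 0) (h1 : e2 * w0 + e0 * w2 = 0) (h2 : e0 * w1 + e1 * w0 = 0) :
    (e0 * ((z1 + w1) * (z2 + w2)) + e0 * (z1 * z2)) +
    (e1 * ((z2 + w2) * (z0 + w0)) + e1 * (z2 * z0)) +
    (e2 * ((z0 + w0) * (z1 + w1)) + e2 * (z0 * z1)) = e0 * e1 * e2 * w0 := by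
  revert e0 e1 e2 w0 w1 w2 z0 z1 z2
  decide

/-- The local identity: if `w` is parallel to the colour vector of `p`, then the derivative of
`Phi` in direction `w`, evaluated at the colour vector of `p`, is constant, equal to `w p 0`. -/
theorem local_id {s : ℕ} (p : Idx s) (w z : VV s) (h : ∀ te, chi p te w = 0) :
    ∑ g, (Phi (z + w) g (p g) + Phi z g (p g)) = w p 0 := by
  classical
  have h1 : ∑ g, (Phi (z + w) g (p g) + Phi z g (p g)) =
      ∑ t : Idx s, (if t = p then w t 0 else 0) := by
    simp only [Phi, ← Finset.sum_add_distrib]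
    rw [Finset.sum_comm]
    refine Finset.sum_congr rfl fun t _ => ?_
    have k0 := h (t, 0)
    have k1 := h (t, 1)
    have k2 := h (t, 2)
    simp only [chi, LinearMap.coe_mk, AddHom.coe_mk] at k0 k1 k2
    rw [Fin.sum_univ_three]
    have hk := key (if t 0 = p 0 then 1 else 0) (if t 1 = p 1 then 1 else 0)
      (if t 2 = p 2 then 1 else 0) (w t 0) (w t 1) (w t 2) (z t 0) (z t 1) (z t 2)
      (by
        have e1 : ((0 : Fin 3) + 1) = 1 := rfl
        have e2 : ((0 : Fin 3) + 2) = 2 := rfl
        rw [e1, e2] at k0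
        refine Eq.trans ?_ k0
        simp only [ite_mul, one_mul, zero_mul, eq_comm (a := t 1), eq_comm (a := t 2)])
      (by
        have e1 : ((1 : Fin 3) + 1) = 2 := rfl
        have e2 : ((1 : Fin 3) + 2) = 0 := rfl
        rw [e1, e2] at k1
        refine Eq.trans ?_ k1
        simp only [ite_mul, one_mul, zero_mul, eq_comm (a := t 0), eq_comm (a := t 2)])
      (by
        have e1 : ((2 : Fin 3) + 1) = 0 := rfl
        have e2 : ((2 : Fin 3) + 2) = 1 := rfl
        rw [e1, e2] at k2
        refine Eq.trans ?_ k2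
        simp only [ite_mul, one_mul, zero_mul, eq_comm (a := t 0), eq_comm (a := t 1)])
    have hprod : ((if t 0 = p 0 then 1 else 0) * (if t 1 = p 1 then 1 else 0) *
        (if t 2 = p 2 then 1 else 0) : ZMod 2) * w t 0 = if t = p then w t 0 else 0 := by
      by_cases htp : t = p
      · subst htp; simp
      · have : ¬ (t 0 = p 0 ∧ t 1 = p 1 ∧ t 2 = p 2) := by
          rintro ⟨a, b, c⟩
          apply htp
          funext g
          fin_cases g
          · exact a
          · exact b
          · exact c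
        rw [if_neg htp]
        by_cases a : t 0 = p 0
        · by_cases b : t 1 = p 1
          · by_cases c : t 2 = p 2
            · exact absurd ⟨a, b, c⟩ this
            · simp [c]
          · simp [b]
        · simp [a]
    rw [← hprod, ← hk]
    have e00 : ((0 : Fin 3) + 1) = 1 := rfl
    have e01 : ((0 : Fin 3) + 2) = 2 := rfl
    have e10 : ((1 : Fin 3) + 1) = 2 := rfl
    have e11 : ((1 : Fin 3) + 2) = 0 := rfl
    have e20 : ((2 : Fin 3) + 1) = 0 := rfl
    have e21 : ((2 : Fin 3) + 2) = 1 := rfl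
    rw [e00, e01, e10, e11, e20, e21]
    simp only [Pi.add_apply, ite_mul, one_mul, zero_mul]
  rw [h1]
  simp

end Pool.H62.SS
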