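import Mathlib
import Pool.Agent.Helper62K9.SS.Local

namespace Pool.H62.SS

open Module

/-- Multiplication by the indicator function of `{p | p g = i}`. -/
def Dm {s : ℕ} (gi : Fin 3 × Fin s) : (Idx s → ZMod 2) →ₗ[ZMod 2] (Idx s → ZMod 2) where
  toFun y p := if p gi.1 = gi.2 then y p else 0
  map_add' x y := by
    funext p
    simp only [Pi.add_apply]
    split_ifs <;> simp
  map_smul' c x := by
    funext p
    simp only [Pi.smul_apply, smul_eq_mul, RingHom.id_apply]
    split_ifs <;> simp

/-- If `Om` reproduces the Kronecker delta from its three rows at each triple, its rank is at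
least `s ^ 2 / 3`. -/
theorem rank_ge {s : ℕ} (Om : VV s →ₗ[ZMod 2] (Idx s → ZMod 2))
    (h : ∀ p t : Idx s, Om (Pi.single t (fun g => if t g = p g then 1 else 0)) p =
      if p = t then 1 else 0) :
    s ^ 3 ≤ 3 * s * finrank (ZMod 2) (LinearMap.range Om) := by
  classical
  let Psi : (Fin 3 × Fin s → LinearMap.range Om) →ₗ[ZMod 2] (Idx s → ZMod 2) :=
    ∑ gi : Fin 3 × Fin s, (Dm gi) ∘ₗ (LinearMap.range Om).subtype ∘ₗ LinearMap.proj gi
  have hPsi : ∀ y p, Psi y p = ∑ g : Fin 3, (y (g, p g) : Idx s → ZMod 2) p := by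
    intro y p
    simp only [Psi, LinearMap.sum_apply, Finset.sum_apply, LinearMap.comp_apply,
      LinearMap.proj_apply, Submodule.subtype_apply, Dm, LinearMap.coe_mk, AddHom.coe_mk]
    rw [Fintype.sum_prod_type]
    refine Finset.sum_congr rfl fun g _ => ?_
    simp
  have hsurj : Function.Surjective Psi := by
    intro y
    refine ⟨fun gi => ⟨Om (∑ t : Idx s, if t gi.1 = gi.2 then
      y t • (Pi.single t (Pi.single gi.1 1) : VV s) else 0), LinearMap.mem_range_self _ _⟩, ?_⟩
    funext p
    rw [hPsi]
    simp only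
    rw [← Finset.sum_apply, ← map_sum, Finset.sum_comm]
    have hx : ∀ t : Idx s, (∑ g : Fin 3, if t g = p g then
        y t • (Pi.single t (Pi.single g 1) : VV s) else 0) =
        y t • Pi.single t (fun g => if t g = p g then 1 else 0) := by
      intro t
      funext t' g'
      by_cases htt : t' = t
      · subst htt
        simp only [Finset.sum_apply, Pi.smul_apply, Pi.single_eq_same, smul_eq_mul]
        rw [Finset.sum_eq_single g']
        · split_ifs <;> simp
        · intro g _ hg
          split_ifs
          · simp [Pi.single_eq_of_ne (Ne.symm hg)]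
          · simp
        · simp
      · simp only [Finset.sum_apply, Pi.smul_apply, smul_eq_mul, Pi.single_eq_of_ne htt,
          Pi.zero_apply, mul_zero]
        refine Finset.sum_eq_zero fun g _ => ?_
        split_ifs
        · simp [Pi.single_eq_of_ne htt]
        · simp
    simp only [hx, map_sum, map_smul, Finset.sum_apply, Pi.smul_apply, smul_eq_mul, h]
    simp
  have h1 := LinearMap.finrank_le_finrank_of_injective
    (f := Psi.dualMap) (LinearMap.dualMap_injective_of_surjective hsurj)
  rw [Subspace.dual_finrank_eq, Subspace.dual_finrank_eq] at h1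
  have e1 : finrank (ZMod 2) (Idx s → ZMod 2) = s ^ 3 := by simp
  have e2 : finrank (ZMod 2) (Fin 3 × Fin s → LinearMap.range Om) =
      3 * s * finrank (ZMod 2) (LinearMap.range Om) := by
    rw [Module.finrank_pi_fintype]
    simp
  rwa [e1, e2] at h1

/-- The local theorem: a linear system that solves the gadget equations has image of
codimension at least `s ^ 2 / 3 - 3 s`. -/
theorem local_codim {s : ℕ} (hs : 0 < s) {U : Type*} [AddCommGroup U] [Module (ZMod 2) U]
    (f : U →ₗ[ZMod 2] VV s) (v : U →ₗ[ZMod 2] Col s)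
    (h : ∀ u, ∃ z, Phi (z + f u) + Phi z = v u) :
    s ^ 2 + 3 * finrank (ZMod 2) (LinearMap.range f) ≤ 9 * s + 9 * s ^ 3 := by
  classical
  -- the functionals
  let psi : Idx s → (U →ₗ[ZMod 2] ZMod 2) := fun p =>
    (LinearMap.proj p ∘ₗ Lin s ∘ₗ v) +
      ((LinearMap.proj 0 : (Fin 3 → ZMod 2) →ₗ[ZMod 2] ZMod 2) ∘ₗ
        (LinearMap.proj p : VV s →ₗ[ZMod 2] (Fin 3 → ZMod 2)) ∘ₗ f)
  have hpsi : ∀ p u, psi p u = (∑ g, v u g (p g)) + f u p 0 := by
    intro p u; rfl
  have hspan : ∀ p, psi p ∈ Submodule.span (ZMod 2)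
      (Set.range fun te : Idx s × Fin 3 => (chi p te) ∘ₗ f) := by
    intro p
    apply mem_span_of_iInf_ker_le_ker
    intro u hu
    rw [Submodule.mem_iInf] at hu
    have hu' : ∀ te, chi p te (f u) = 0 := fun te => by
      have := hu te
      rwa [LinearMap.mem_ker] at this
    rw [LinearMap.mem_ker, hpsi]
    obtain ⟨z, hz⟩ := h u
    have := local_id p (f u) z hu'
    rw [← hz]
    simp only [Pi.add_apply]
    rw [this]
    exact CharTwo.add_self_eq_zero _
  have hex : ∀ p, ∃ a : Idx s × Fin 3 → ZMod 2, ∑ te, a te • ((chi p te) ∘ₗ f) = psi p := by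
    intro p
    have := hspan p
    rw [Submodule.mem_span_range_iff_exists_fun] at this
    exact this
  choose a ha using hex
  let Om : VV s →ₗ[ZMod 2] (Idx s → ZMod 2) :=
    LinearMap.pi fun p => ((LinearMap.proj 0 : (Fin 3 → ZMod 2) →ₗ[ZMod 2] ZMod 2) ∘ₗ
        (LinearMap.proj p : VV s →ₗ[ZMod 2] (Fin 3 → ZMod 2))) + ∑ te, a p te • chi p te
  have hOm : ∀ w p, Om w p = w p 0 + ∑ te, a p te * chi p te w := by
    intro w p
    simp [Om, LinearMap.sum_apply]
  have hOmf : ∀ u, Om (f u) = Lin s (v u) := by
    intro u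
    funext p
    rw [hOm, Lin_apply]
    have := congrArg (fun F : U →ₗ[ZMod 2] ZMod 2 => F u) (ha p)
    simp only [LinearMap.sum_apply, LinearMap.smul_apply, LinearMap.comp_apply, smul_eq_mul,
      hpsi] at this
    rw [this]
    rw [add_comm, add_assoc, CharTwo.add_self_eq_zero, add_zero]
  have hdelta : ∀ p t : Idx s, Om (Pi.single t (fun g => if t g = p g then 1 else 0)) p =
      if p = t then 1 else 0 := by
    intro p t
    rw [hOm]
    have hz : ∑ te, a p te * chi p te (Pi.single t (fun g => if t g = p g then 1 else 0)) = 0 := by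
      refine Finset.sum_eq_zero fun te _ => ?_
      have : chi p te (Pi.single t (fun g => if t g = p g then 1 else 0)) = 0 := by
        obtain ⟨t', e⟩ := te
        simp only [chi, LinearMap.coe_mk, AddHom.coe_mk]
        by_cases htt : t' = t
        · subst htt
          simp only [Pi.single_eq_same]
          by_cases h1 : p (e + 1) = t' (e + 1)
          · by_cases h2 : p (e + 2) = t' (e + 2)
            · simp only [h1, h2, if_true]
              exact CharTwo.add_self_eq_zero _
            · simp [h2, Ne.symm (a := p (e+2)) (b := t' (e+2)) h2]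
          · by_cases h2 : p (e + 2) = t' (e + 2)
            · simp [h1, Ne.symm (a := p (e+1)) (b := t' (e+1)) h1]
            · simp [h1, h2]
        · simp [Pi.single_eq_of_ne htt]
      rw [this, mul_zero]
    rw [hz, add_zero]
    by_cases hpt : p = t
    · subst hpt; simp
    · rw [Pi.single_eq_of_ne hpt, if_neg hpt]; rfl
  have h3 := rank_ge Om hdelta
  -- upper bound for the rank of `Om`
  obtain ⟨S, hS⟩ := Submodule.exists_isCompl (LinearMap.range f)
  have hrange : LinearMap.range Om ≤ LinearMap.range (Lin s) ⊔ S.map Om := by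
    rw [LinearMap.range_eq_map, ← hS.sup_eq_top, Submodule.map_sup]
    refine sup_le_sup ?_ le_rfl
    rintro _ ⟨_, ⟨u, rfl⟩, rfl⟩
    rw [hOmf]
    exact LinearMap.mem_range_self _ _
  have h4 : finrank (ZMod 2) (LinearMap.range Om) ≤ 3 * s + finrank (ZMod 2) S := by
    calc finrank (ZMod 2) (LinearMap.range Om)
        ≤ finrank (ZMod 2) (LinearMap.range (Lin s) ⊔ S.map Om : Submodule _ _) :=
          Submodule.finrank_mono hrange
      _ ≤ finrank (ZMod 2) (LinearMap.range (Lin s)) + finrank (ZMod 2) (S.map Om) :=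
          Submodule.finrank_add_le_finrank_add_finrank _ _
      _ ≤ 3 * s + finrank (ZMod 2) S := by
          refine add_le_add ?_ (Submodule.finrank_map_le _ _)
          refine (LinearMap.finrank_range_le _).trans ?_
          rw [Module.finrank_pi_fintype]
          simp
  have h5 : finrank (ZMod 2) (LinearMap.range f) + finrank (ZMod 2) S = 3 * s ^ 3 := by
    rw [Submodule.finrank_add_eq_of_isCompl hS, Module.finrank_pi_fintype]
    simp [mul_comm]
  have h6 : s ^ 2 ≤ 3 * finrank (ZMod 2) (LinearMap.range Om) := by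
    have : s * s ^ 2 ≤ s * (3 * finrank (ZMod 2) (LinearMap.range Om)) := by
      calc s * s ^ 2 = s ^ 3 := by ring
        _ ≤ 3 * s * finrank (ZMod 2) (LinearMap.range Om) := h3
        _ = s * (3 * finrank (ZMod 2) (LinearMap.range Om)) := by ring
    exact Nat.le_of_mul_le_mul_left this hs
  omega

end Pool.H62.SS
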