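import Mathlib

namespace Pool.H62.SS

open Module

variable {E V : Type*} [AddCommGroup E] [Module (ZMod 2) E] [AddCommGroup V] [Module (ZMod 2) V]

/-- Evaluation of a linear map at a family of vectors and a family of functionals. -/
def ev {κ m : ℕ} (c : Fin κ → E) (h : Fin m → Dual (ZMod 2) V) :
    (E →ₗ[ZMod 2] V) →ₗ[ZMod 2] (Fin m → Fin κ → ZMod 2) where
  toFun T j i := h j (T (c i))
  map_add' x y := by
    funext j i
    simp
  map_smul' c x := by
    funext j i
    simp

theorem pi_surj {m : ℕ} [Module.Finite (ZMod 2) V] (h : Fin m → Dual (ZMod 2) V)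
    (hh : LinearIndependent (ZMod 2) h) (y : Fin m → ZMod 2) : ∃ v : V, ∀ j, h j v = y j := by
  classical
  have hs : Function.Surjective (LinearMap.pi h : V →ₗ[ZMod 2] (Fin m → ZMod 2)) := by
    rw [← LinearMap.dualMap_injective_iff]
    rw [injective_iff_map_eq_zero]
    intro φ hφ
    have h1 : ∑ j, φ (Pi.single j 1) • h j = 0 := by
      apply LinearMap.ext
      intro v
      have h2 := congrArg (fun F : Dual (ZMod 2) V => F v) hφ
      simp only [LinearMap.dualMap_apply, LinearMap.zero_apply] at h2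
      have h3 : φ ((LinearMap.pi h : V →ₗ[ZMod 2] (Fin m → ZMod 2)) v) =
          ∑ j, φ (Pi.single j 1) * h j v := by
        conv_lhs => rw [← Finset.univ_sum_single ((LinearMap.pi h : V →ₗ[ZMod 2] _) v)]
        rw [map_sum]
        refine Finset.sum_congr rfl fun j _ => ?_
        have : (Pi.single j ((LinearMap.pi h : V →ₗ[ZMod 2] (Fin m → ZMod 2)) v j) :
            Fin m → ZMod 2) = h j v • Pi.single j 1 := by
          rw [← Pi.single_smul]
          simp
        rw [this, map_smul, smul_eq_mul, mul_comm]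
      rw [h3] at h2
      simpa using h2
    have h4 := Fintype.linearIndependent_iff.mp hh _ h1
    apply LinearMap.pi_ext'
    intro j
    apply LinearMap.ext_ring
    simpa using h4 j
  obtain ⟨v, hv⟩ := hs y
  exact ⟨v, fun j => congrFun hv j⟩

theorem extend_map {κ : ℕ} (c : Fin κ → E) (hc : LinearIndependent (ZMod 2) c) (v : Fin κ → V) :
    ∃ T : E →ₗ[ZMod 2] V, ∀ i, T (c i) = v i := by
  classical
  have hinj : Function.Injective (Fintype.linearCombination (ZMod 2) c) := by
    rw [injective_iff_map_eq_zero]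
    intro a ha
    rw [Fintype.linearCombination_apply] at ha
    funext i
    exact Fintype.linearIndependent_iff.mp hc a ha i
  obtain ⟨G, hG⟩ := LinearMap.exists_leftInverse_of_injective _ (LinearMap.ker_eq_bot.mpr hinj)
  refine ⟨(Fintype.linearCombination (ZMod 2) v) ∘ₗ G, fun i => ?_⟩
  have h1 : G (c i) = Pi.single i 1 := by
    have := congrArg (fun F : (Fin κ → ZMod 2) →ₗ[ZMod 2] (Fin κ → ZMod 2) =>
      F (Pi.single i 1)) hG
    simpa [Fintype.linearCombination_apply_single] using this
  rw [LinearMap.comp_apply, h1, Fintype.linearCombination_apply_single, one_smul]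

theorem ev_surj {κ m : ℕ} [Module.Finite (ZMod 2) V] (c : Fin κ → E)
    (hc : LinearIndependent (ZMod 2) c) (h : Fin m → Dual (ZMod 2) V)
    (hh : LinearIndependent (ZMod 2) h) : Function.Surjective (ev c h) := by
  intro y
  choose v hv using fun i : Fin κ => pi_surj h hh (fun j => y j i)
  obtain ⟨T, hT⟩ := extend_map c hc v
  refine ⟨T, ?_⟩
  funext j i
  show h j (T (c i)) = y j i
  rw [hT, hv]

theorem finrank_ker_ev {κ m : ℕ} [Module.Finite (ZMod 2) E] [Module.Finite (ZMod 2) V]
    (c : Fin κ → E)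
    (hc : LinearIndependent (ZMod 2) c) (h : Fin m → Dual (ZMod 2) V)
    (hh : LinearIndependent (ZMod 2) h) :
    finrank (ZMod 2) (LinearMap.ker (ev c h)) + κ * m =
      finrank (ZMod 2) E * finrank (ZMod 2) V := by
  have h1 := LinearMap.finrank_range_add_finrank_ker (ev c h)
  rw [LinearMap.range_eq_top.mpr (ev_surj c hc h hh), finrank_top, Module.finrank_linearMap,
    Module.finrank_pi_fintype] at h1
  simp only [Module.finrank_fintype_fun_eq_card, Fintype.card_fin, Finset.sum_const,
    Finset.card_univ, smul_eq_mul] at h1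
  rw [← h1]
  ring

/-- If the image of `C` has codimension at least `m`, there are `m` independent functionals
vanishing on it. -/
theorem exists_functionals {m : ℕ} [Module.Finite (ZMod 2) V] (D : Submodule (ZMod 2) V)
    (hD : finrank (ZMod 2) D + m ≤ finrank (ZMod 2) V) :
    ∃ h : Fin m → Dual (ZMod 2) V, LinearIndependent (ZMod 2) h ∧ ∀ j, ∀ d ∈ D, h j d = 0 := by
  have h1 := Subspace.finrank_add_finrank_dualAnnihilator_eq D
  obtain ⟨g, hg⟩ := exists_linearIndependent_of_le_finrank (R := ZMod 2)
    (M := D.dualAnnihilator) (n := m) (by omega)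
  refine ⟨fun j => (g j : Dual (ZMod 2) V), ?_, ?_⟩
  · exact hg.map' D.dualAnnihilator.subtype (Submodule.ker_subtype _)
  · intro j d hd
    exact (Submodule.mem_dualAnnihilator _).mp (g j).2 d hd

/-- Union bound: some tuple of linear maps sends every subspace of dimension `κ` onto a subspace
of small codimension, in at least one coordinate. -/
theorem union_bound [Module.Finite (ZMod 2) E] [Module.Finite (ZMod 2) V] (n M m κ t : ℕ)
    (hE : finrank (ZMod 2) E = n) (hV : finrank (ZMod 2) V = M)
    (h : n * κ + t * (M * m) < t * (κ * m)) :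
    ∃ T : Fin t → (E →ₗ[ZMod 2] V), ∀ C : Submodule (ZMod 2) E, κ ≤ finrank (ZMod 2) C →
      ∃ b, M < finrank (ZMod 2) (C.map (T b)) + m := by
  classical
  by_contra hcon
  push Not at hcon
  have : Fact (Nat.Prime 2) := ⟨Nat.prime_two⟩
  have fE : Finite E := Module.finite_of_finite (ZMod 2)
  have fV : Finite V := Module.finite_of_finite (ZMod 2)
  have fH : Finite (E →ₗ[ZMod 2] V) := Module.finite_of_finite (ZMod 2)
  have fD : Finite (Dual (ZMod 2) V) := Module.finite_of_finite (ZMod 2)
  let iE : Fintype E := Fintype.ofFinite E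
  let iH : Fintype (E →ₗ[ZMod 2] V) := Fintype.ofFinite _
  let iD : Fintype (Dual (ZMod 2) V) := Fintype.ofFinite _
  have key : ∀ T : Fin t → (E →ₗ[ZMod 2] V), ∃ q : (Fin κ → E) × (Fin t → Fin m → Dual (ZMod 2) V),
      LinearIndependent (ZMod 2) q.1 ∧ (∀ b, LinearIndependent (ZMod 2) (q.2 b)) ∧
        ∀ b, ev q.1 (q.2 b) (T b) = 0 := by
    intro T
    obtain ⟨C, hC, hCb⟩ := hcon T
    obtain ⟨g, hg⟩ := exists_linearIndependent_of_le_finrank (R := ZMod 2) (M := C) hC
    have hf : ∀ b, ∃ h : Fin m → Dual (ZMod 2) V, LinearIndependent (ZMod 2) h ∧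
        ∀ j, ∀ d ∈ C.map (T b), h j d = 0 := fun b =>
      exists_functionals _ (by rw [hV]; exact hCb b)
    choose hb hb1 hb2 using hf
    refine ⟨(fun i => (g i : E), hb), hg.map' C.subtype (Submodule.ker_subtype _), hb1, ?_⟩
    intro b
    funext j i
    exact hb2 b j _ (Submodule.mem_map_of_mem (g i).2)
  choose q hq1 hq2 hq3 using key
  have hfib : ∀ a ∈ Finset.univ.image q, (Finset.univ.filter fun T => q T = a).card ≤
      (2 ^ (n * M - κ * m)) ^ t := by
    intro a ha
    obtain ⟨T0, -, rfl⟩ := Finset.mem_image.mp ha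
    have hsub : (Finset.univ.filter fun T => q T = q T0) ⊆ Fintype.piFinset fun b =>
        (Finset.univ.filter fun S : E →ₗ[ZMod 2] V => ev (q T0).1 ((q T0).2 b) S = 0) := by
      intro T hT
      rw [Finset.mem_filter] at hT
      rw [Fintype.mem_piFinset]
      intro b
      rw [Finset.mem_filter]
      refine ⟨Finset.mem_univ _, ?_⟩
      rw [← hT.2]
      exact hq3 T b
    refine (Finset.card_le_card hsub).trans ?_
    rw [Fintype.card_piFinset]
    refine (Finset.prod_le_pow_card _ _ (2 ^ (n * M - κ * m)) ?_).trans (by simp)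
    intro b _
    have h1 := finrank_ker_ev (q T0).1 (hq1 T0) ((q T0).2 b) (hq2 T0 b)
    rw [hE, hV] at h1
    have h2 : (Finset.univ.filter fun S : E →ₗ[ZMod 2] V => ev (q T0).1 ((q T0).2 b) S = 0).card =
        Nat.card (LinearMap.ker (ev (q T0).1 ((q T0).2 b))) := by
      rw [Nat.card_eq_fintype_card, Fintype.card_subtype]
      refine congrArg Finset.card ?_
      ext S
      simp only [Finset.mem_filter, LinearMap.mem_ker]
    rw [h2, Module.natCard_eq_pow_finrank (K := ZMod 2), Nat.card_zmod]
    exact Nat.pow_le_pow_right (by norm_num) (by omega)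
  have h1 := Finset.card_le_mul_card_image (f := q) Finset.univ _ hfib
  have h2 : (Finset.univ.image q).card ≤ 2 ^ (n * κ) * 2 ^ (t * (M * m)) := by
    refine (Finset.card_le_univ _).trans ?_
    rw [Fintype.card_prod, Fintype.card_fun, Fintype.card_fun, Fintype.card_fun]
    simp only [Fintype.card_fin]
    rw [← Nat.card_eq_fintype_card, ← Nat.card_eq_fintype_card,
      Module.natCard_eq_pow_finrank (K := ZMod 2) (V := E),
      Module.natCard_eq_pow_finrank (K := ZMod 2) (V := Dual (ZMod 2) V), Nat.card_zmod,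
      Subspace.dual_finrank_eq, hE, hV, ← pow_mul, ← pow_mul, ← pow_mul]
    have : M * (m * t) = t * (M * m) := by ring
    rw [this]
  have h3 : (Finset.univ : Finset (Fin t → (E →ₗ[ZMod 2] V))).card = 2 ^ (n * M * t) := by
    rw [Finset.card_univ, Fintype.card_fun, Fintype.card_fin, ← Nat.card_eq_fintype_card,
      Module.natCard_eq_pow_finrank (K := ZMod 2) (V := E →ₗ[ZMod 2] V), Nat.card_zmod,
      Module.finrank_linearMap, hE, hV, ← pow_mul]
  rw [h3] at h1
  have h4 := h1.trans (Nat.mul_le_mul_left _ h2)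
  rw [← pow_mul, ← pow_add, ← pow_add] at h4
  have h5 := (Nat.pow_le_pow_iff_right (by norm_num : 1 < 2)).mp h4
  -- the exponent
  have hle : κ * m ≤ n * M := by
    rcases Nat.eq_zero_or_pos t with ht | ht
    · subst ht; simp at h
    · have T0 : Fin t → (E →ₗ[ZMod 2] V) := fun _ => 0
      have := finrank_ker_ev (q T0).1 (hq1 T0) ((q T0).2 ⟨0, ht⟩) (hq2 T0 _)
      rw [hE, hV] at this
      omega
  obtain ⟨r, hr⟩ := Nat.exists_eq_add_of_le hle
  rw [hr, Nat.add_sub_cancel_left] at h5
  nlinarith [h5, h]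

end Pool.H62.SS
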