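import Mathlib
import Pool.Agent.Helper62K9.SS.CW
import Pool.Agent.Helper62K9.SS.Rank
import Pool.Agent.Helper62K9.SS.Union

namespace Pool.H62.SS

open Module
open scoped Pointwise

/-- The graph of `x ↦ (Phi (T_b x))_b`. -/
def graph {s t n N : ℕ}
    (e : (Fin N → ZMod 2) ≃ₗ[ZMod 2] (Fin n → ZMod 2) × (Fin t → Col s))
    (T : Fin t → ((Fin n → ZMod 2) →ₗ[ZMod 2] VV s)) : Set (Fin N → ZMod 2) :=
  {z | ∀ b, (e z).2 b = Phi (T b (e z).1)}

theorem graph_alpha {s t n N : ℕ}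
    (e : (Fin N → ZMod 2) ≃ₗ[ZMod 2] (Fin n → ZMod 2) × (Fin t → Col s))
    (T : Fin t → ((Fin n → ZMod 2) →ₗ[ZMod 2] VV s))
    (W : Submodule (ZMod 2) (Fin N → ZMod 2))
    (hW : (W : Set (Fin N → ZMod 2)) \ {0} ⊆ (graph e T)ᶜ) :
    finrank (ZMod 2) W ≤ 6 * s * t := by
  classical
  by_contra hlt
  push Not at hlt
  let coord : Fin t × Fin 3 × Fin s → (((Fin n → ZMod 2) × (Fin t → Col s)) →ₗ[ZMod 2] ZMod 2) :=
    fun bgi =>
      (LinearMap.proj bgi.2.2 : (Fin s → ZMod 2) →ₗ[ZMod 2] ZMod 2) ∘ₗ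
        (LinearMap.proj bgi.2.1 : Col s →ₗ[ZMod 2] (Fin s → ZMod 2)) ∘ₗ
          (LinearMap.proj bgi.1 : (Fin t → Col s) →ₗ[ZMod 2] Col s) ∘ₗ
            LinearMap.snd (ZMod 2) (Fin n → ZMod 2) (Fin t → Col s)
  let tc : Fin t → Idx s → Fin 3 → (((Fin n → ZMod 2) × (Fin t → Col s)) →ₗ[ZMod 2] ZMod 2) :=
    fun b p g =>
      (LinearMap.proj g : (Fin 3 → ZMod 2) →ₗ[ZMod 2] ZMod 2) ∘ₗ
        (LinearMap.proj p : VV s →ₗ[ZMod 2] (Fin 3 → ZMod 2)) ∘ₗ
          (T b) ∘ₗ LinearMap.fst (ZMod 2) (Fin n → ZMod 2) (Fin t → Col s)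
  obtain ⟨w, hw0, hw⟩ := cw (E := W) (ι := Fin t × Fin 3 × Fin s) (κ := Idx s)
    (fun bgi => coord bgi ∘ₗ e.toLinearMap ∘ₗ W.subtype)
    (fun bgi p => (if p bgi.2.1 = bgi.2.2 then tc bgi.1 p (bgi.2.1 + 1) else 0) ∘ₗ
      e.toLinearMap ∘ₗ W.subtype)
    (fun bgi p => tc bgi.1 p (bgi.2.1 + 2) ∘ₗ e.toLinearMap ∘ₗ W.subtype)
    (by
      simp only [Fintype.card_prod, Fintype.card_fin]
      calc 2 * (t * (3 * s)) = 6 * s * t := by ring
        _ < _ := hlt)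
  have hmem : (w : Fin N → ZMod 2) ∈ graph e T := by
    intro b
    funext g i
    have h1 := hw (b, g, i)
    have h2 : (e w).2 b g i + Phi (T b (e w).1) g i = 0 := by
      refine Eq.trans ?_ h1
      congr 1
      unfold Phi
      refine Finset.sum_congr rfl fun p _ => ?_
      by_cases hp : p g = i
      · simp [hp, tc]
      · simp [hp]
    exact CharTwo.add_eq_zero.mp h2
  exact hW ⟨w.2, by simpa using hw0⟩ hmem

theorem graph_omega {s t n N : ℕ} (hs : 18 ≤ s)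
    (e : (Fin N → ZMod 2) ≃ₗ[ZMod 2] (Fin n → ZMod 2) × (Fin t → Col s))
    (T : Fin t → ((Fin n → ZMod 2) →ₗ[ZMod 2] VV s))
    (hT : ∀ C : Submodule (ZMod 2) (Fin n → ZMod 2), 6 * s ^ 3 + 1 ≤ finrank (ZMod 2) C →
      ∃ b, 3 * s ^ 3 < finrank (ZMod 2) (C.map (T b)) + s ^ 2 / 6)
    (W : Submodule (ZMod 2) (Fin N → ZMod 2))
    (hW : (W : Set (Fin N → ZMod 2)) \ {0} ⊆ graph e T + graph e T) :
    finrank (ZMod 2) W ≤ 6 * s ^ 3 := by
  classical
  by_contra hlt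
  push Not at hlt
  let pr : W →ₗ[ZMod 2] (Fin n → ZMod 2) :=
    LinearMap.fst (ZMod 2) (Fin n → ZMod 2) (Fin t → Col s) ∘ₗ e.toLinearMap ∘ₗ W.subtype
  have hpr : ∀ u : W, pr u = (e u).1 := fun u => rfl
  -- every element of `W` is a sum of two elements of the graph
  have hsum : ∀ u : W, ∃ z z' : Fin N → ZMod 2, z ∈ graph e T ∧ z' ∈ graph e T ∧
      z + z' = u := by
    intro u
    by_cases hu : (u : Fin N → ZMod 2) = 0
    · refine ⟨0, 0, ?_, ?_, by rw [hu, add_zero]⟩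
      all_goals
        intro b
        funext g i
        simp [Phi]
    · obtain ⟨z, hz, z', hz', h⟩ := hW ⟨u.2, hu⟩
      exact ⟨z, z', hz, hz', h⟩
  have hinj : Function.Injective pr := by
    rw [injective_iff_map_eq_zero]
    intro u hu
    obtain ⟨z, z', hz, hz', h⟩ := hsum u
    have h1 : (e z).1 + (e z').1 = 0 := by
      rw [← hu, hpr, ← h, map_add]
      rfl
    have h2 : (e z).1 = (e z').1 := by
      funext j
      exact CharTwo.add_eq_zero.mp (congrFun h1 j)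
    have h3 : (e z).2 = (e z').2 := by
      funext b
      rw [hz b, hz' b, h2]
    have h4 : z = z' := e.injective (Prod.ext h2 h3)
    apply Subtype.ext
    rw [← h, h4]
    funext j
    exact CharTwo.add_self_eq_zero _
  have hC : finrank (ZMod 2) (LinearMap.range pr) = finrank (ZMod 2) W :=
    LinearMap.finrank_range_of_inj hinj
  obtain ⟨b, hb⟩ := hT (LinearMap.range pr) (by rw [hC]; omega)
  let v : W →ₗ[ZMod 2] Col s :=
    (LinearMap.proj b : (Fin t → Col s) →ₗ[ZMod 2] Col s) ∘ₗ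
      LinearMap.snd (ZMod 2) (Fin n → ZMod 2) (Fin t → Col s) ∘ₗ e.toLinearMap ∘ₗ W.subtype
  have hloc := local_codim (s := s) (by omega) (U := W) (T b ∘ₗ pr) v (by
    intro u
    obtain ⟨z, z', hz, hz', h⟩ := hsum u
    refine ⟨T b (e z).1, ?_⟩
    have h1 : T b (e z).1 + (T b ∘ₗ pr) u = T b (e z').1 := by
      have : (T b ∘ₗ pr) u = T b (e z).1 + T b (e z').1 := by
        show T b (e u).1 = _
        rw [← h, map_add, Prod.fst_add, map_add]
      rw [this, ← add_assoc]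
      have h0 : T b (e z).1 + T b (e z).1 = 0 := by
        funext p g
        exact CharTwo.add_self_eq_zero _
      rw [h0, zero_add]
    rw [h1]
    show _ = (e u).2 b
    rw [← h, map_add, Prod.snd_add, Pi.add_apply, hz b, hz' b, add_comm])
  rw [LinearMap.range_comp] at hloc
  have hm : 6 * (s ^ 2 / 6) ≤ s ^ 2 := Nat.mul_div_le _ _
  nlinarith [hloc, hb, hm, hs]

theorem core (s t n N : ℕ) (hs : 18 ≤ s) (ht : 1 ≤ t) (hn : 2 * n ≤ t * (s ^ 2 / 6))
    (hN : N = n + 3 * s * t) :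
    ∃ X : Set (Fin N → ZMod 2),
      (∀ W : Submodule (ZMod 2) (Fin N → ZMod 2), (W : Set (Fin N → ZMod 2)) \ {0} ⊆ Xᶜ →
        finrank (ZMod 2) W ≤ 6 * s * t) ∧
      (∀ W : Submodule (ZMod 2) (Fin N → ZMod 2), (W : Set (Fin N → ZMod 2)) \ {0} ⊆ X + X →
        finrank (ZMod 2) W ≤ 6 * s ^ 3) := by
  have hfr : finrank (ZMod 2) (Fin N → ZMod 2) =
      finrank (ZMod 2) ((Fin n → ZMod 2) × (Fin t → Col s)) := by
    rw [Module.finrank_prod, Module.finrank_pi_fintype (ZMod 2) (M := fun _ : Fin t => Col s),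
      Module.finrank_pi_fintype (ZMod 2) (M := fun _ : Fin 3 => (Fin s → ZMod 2))]
    simp [hN]
    ring
  have e : (Fin N → ZMod 2) ≃ₗ[ZMod 2] (Fin n → ZMod 2) × (Fin t → Col s) :=
    LinearEquiv.ofFinrankEq (R := ZMod 2) _ _ hfr
  have hM : finrank (ZMod 2) (VV s) = 3 * s ^ 3 := by
    rw [Module.finrank_pi_fintype]
    simp [mul_comm]
  have hm1 : 1 ≤ s ^ 2 / 6 := by
    rw [Nat.one_le_div_iff (by norm_num)]
    nlinarith
  obtain ⟨T, hT⟩ := union_bound (E := Fin n → ZMod 2) (V := VV s) n (3 * s ^ 3) (s ^ 2 / 6)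
    (6 * s ^ 3 + 1) t (by simp) hM (by
      set m := s ^ 2 / 6
      have h1 : 1 ≤ t * m := Nat.mul_pos ht hm1
      have h2 : 2 * n * (3 * s ^ 3) ≤ t * m * (3 * s ^ 3) := Nat.mul_le_mul_right _ hn
      nlinarith [h1, h2, hn])
  exact ⟨graph e T, graph_alpha e T, graph_omega hs e T hT⟩

end Pool.H62.SS
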